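import Pool.Agent.H97.PRK.Targets

/-!
# MP_e37c09_lc, row SJ2 of the board prk_modules: small subsets of the image of a club set
-/

open Ordinal Cardinal Order Set
open scoped ZFSet

universe u

namespace Pool.Agent.H55.PRK

open _root_.HD HD.PRK

/-- the points which are limits of images of elements of `C` are a club set -/
theorem SJ2_clb {δ η θ : Ordinal.{u}} {j : ZFSet.{u} → ZFSet.{u}} {K : Cardinal.{u}}
    {μ ρ : Ordinal.{u}} {F : ZFSet.{u}} (hs : SolX.{u} δ η θ j K μ ρ F)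
    {C : Set Ordinal.{u}} (hC : Clb K.ord C) :
    Clb ρ {y | 0 < y ∧ ∀ z < y, ∃ ξ < K.ord, ξ ∈ C ∧ z < Jo j ξ ∧ Jo j ξ < y} := by
  have hj := hs.emb
  have hKω : ω < K.ord := hs.dom.trans hs.dk
  have hK : ℵ₀ < K := by
    have := hKω
    rwa [Cardinal.lt_ord, Ordinal.card_omega0] at this
  constructor
  · intro a ha
    obtain ⟨x, hx1, hx2⟩ := hs.r2 a ha
    have hex : ∀ ξ : Ordinal.{u}, ∃ ζ : Ordinal.{u}, ξ < K.ord → ζ < K.ord ∧ ξ < ζ ∧ ζ ∈ C := by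
      intro ξ
      by_cases hξ : ξ < K.ord
      · obtain ⟨ζ, h1, h2, h3⟩ := hC.unb ξ hξ
        exact ⟨ζ, fun _ => ⟨h1, h2, h3⟩⟩
      · exact ⟨0, fun h => absurd h hξ⟩
    choose g hg using hex
    have hE := HD.All.ve K hs.kreg hK g fun x hx => (hg x hx).1
    obtain ⟨b, hb1, hb2, hb3, hb4⟩ := hE.unb x hx1
    have hn : ∀ n : ℕ, g^[n] x < b := by
      intro n
      induction n with
      | zero => simpa using hb2
      | succ n ih =>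
        rw [Function.iterate_succ_apply']
        exact hb4 _ ih
    have hnK : ∀ n : ℕ, g^[n] x < K.ord := fun n => (hn n).trans hb1
    have hle : ∀ n : ℕ, Jo j (g^[n] x) ≤ ⨆ n : ℕ, Jo j (g^[n] x) := fun n =>
      Ordinal.le_iSup (fun n : ℕ => Jo j (g^[n] x)) n
    have hlt : ∀ n : ℕ, Jo j (g^[n] x) < Jo j (g^[n + 1] x) := fun n => by
      rw [hj.lt_iff ((hnK _).trans hs.kη) ((hnK _).trans hs.kη), Function.iterate_succ_apply']
      exact (hg _ (hnK n)).2.1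
    refine ⟨⨆ n : ℕ, Jo j (g^[n] x), ?_, ?_, ?_, ?_⟩
    · refine lt_of_le_of_lt ?_ (hs.r1 _ hb1)
      refine Ordinal.iSup_le fun n => ?_
      rw [hj.le_iff ((hnK n).trans hs.kη) (hb1.trans hs.kη)]
      exact (hn n).le
    · exact lt_of_lt_of_le hx2 (hle 0)
    · exact lt_of_le_of_lt bot_le (lt_of_lt_of_le (hlt 0) (hle 1))
    · intro z hz
      obtain ⟨n, h⟩ := Ordinal.lt_iSup_iff.1 hz
      refine ⟨g^[n + 1] x, hnK _, ?_, h.trans (hlt n), lt_of_lt_of_le (hlt (n + 1)) (hle (n + 2))⟩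
      rw [Function.iterate_succ_apply']
      exact (hg _ (hnK n)).2.2
  · intro x hx1 hx2 hx3
    refine ⟨hx2, fun w hw => ?_⟩
    obtain ⟨z, hz1, hz2, hz3, hz4⟩ := hx3 w hw
    obtain ⟨ξ, h1, h2, h3, h4⟩ := hz4 w hz2
    exact ⟨ξ, h1, h2, h3, h4.trans hz1⟩

/-- the points of small cofinality of this club set are images of elements of `C` -/
theorem SJ2_pt {δ η θ : Ordinal.{u}} {j : ZFSet.{u} → ZFSet.{u}} {K : Cardinal.{u}}
    {μ ρ : Ordinal.{u}} {F : ZFSet.{u}} (hs : SolX.{u} δ η θ j K μ ρ F)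
    {C : Set Ordinal.{u}} (hC : Clb K.ord C) {y : Ordinal.{u}} (hy1 : y < ρ) (hy0 : 0 < y)
    (hy2 : ∀ z < y, ∃ ξ < K.ord, ξ ∈ C ∧ z < Jo j ξ ∧ Jo j ξ < y) (hy4 : y.cof.ord ≤ μ) :
    ∃ x < K.ord, x ∈ C ∧ x.cof.ord ≤ μ ∧ y = Jo j x := by
  have hj := hs.emb
  have hex : ∃ x, x < K.ord ∧ y ≤ Jo j x := by
    obtain ⟨x, h1, h2⟩ := hs.r2 y hy1
    exact ⟨x, h1, h2.le⟩
  obtain ⟨x, ⟨hx1, hx2⟩, hmin⟩ : ∃ x, (x < K.ord ∧ y ≤ Jo j x) ∧ ∀ ξ < x, Jo j ξ < y := by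
    refine ⟨sInf {x | x < K.ord ∧ y ≤ Jo j x}, csInf_mem (s := {x | x < K.ord ∧ y ≤ Jo j x}) hex,
      fun ξ hξ => ?_⟩
    by_contra h
    push Not at h
    have h0 := csInf_mem (s := {x | x < K.ord ∧ y ≤ Jo j x}) hex
    have : sInf {x | x < K.ord ∧ y ≤ Jo j x} ≤ ξ :=
      csInf_le' (s := {x | x < K.ord ∧ y ≤ Jo j x}) ⟨hξ.trans h0.1, h⟩
    exact absurd hξ (not_lt.2 this)
  have hxη : x < η := hx1.trans hs.kη
  have hcof : ∀ z < y, ∃ a < x, z < Jo j a := by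
    intro z hz
    obtain ⟨ξ, h1, -, h2, h3⟩ := hy2 z hz
    refine ⟨ξ, ?_, h2⟩
    by_contra h
    push Not at h
    have := (hj.le_iff hxη (h1.trans hs.kη)).2 h
    exact absurd (hx2.trans this) (not_le.2 h3)
  have hcx : x.cof = y.cof := Pool.Agent.H87.HD.XF.cof_eq (Jo j)
    (fun a b hab hb => Pool.Agent.H87.HD.XF.J_lt hj hab (hb.trans hxη)) hmin hcof
  have hxl : IsSuccLimit x := by
    have h0 : x ≠ 0 := by
      rintro rfl
      rw [hj.Jo_zero] at hx2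
      exact absurd hy0 (not_lt.2 hx2)
    rw [Ordinal.isSuccLimit_iff]
    refine ⟨h0, Order.isSuccPrelimit_of_succ_lt fun a ha => ?_⟩
    obtain ⟨b, hb1, hb2⟩ := hcof (Jo j a) (hmin a ha)
    have hab : a < b := (hj.lt_iff (ha.trans hxη) (hb1.trans hxη)).1 hb2
    exact lt_of_le_of_lt (Order.succ_le_of_lt hab) hb1
  have hM : x.cof.IsRegular := Cardinal.isRegular_cof hxl
  have hMμ : x.cof.ord < δ := by
    rw [hcx]
    exact lt_of_le_of_lt hy4 hs.mlt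
  obtain ⟨h1, -⟩ := HD.All.xe δ η θ j hj x hxη x.cof hM hMμ rfl
  have hyx : y = Jo j x := by
    refine le_antisymm hx2 ?_
    by_contra h
    push Not at h
    obtain ⟨ξ, h3, h4⟩ := h1 y h
    exact absurd (hmin ξ h3) (not_lt.2 h4.le)
  refine ⟨x, hx1, ?_, by rw [hcx]; exact hy4, hyx⟩
  refine hC.cls x hx1 hxl.bot_lt fun w hw => ?_
  obtain ⟨ξ, h2, h3, h4, h5⟩ := hy2 (Jo j w) (hmin w hw)
  refine ⟨ξ, ?_, (hj.lt_iff (hw.trans hxη) (h2.trans hs.kη)).1 h4, h3⟩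
  rw [hyx] at h5
  exact (hj.lt_iff (h2.trans hs.kη) hxη).1 h5

theorem pf_SJ2 (h : T_JX.{u}) : T_SJ2.{u} := by
  intro δ η θ j K μ ρ F hs C hC
  have hj := hs.emb
  refine ⟨_, SJ2_clb hs hC, ?_⟩
  intro Y hY
  have pt : ∀ z ∈ Y, ∃ x < K.ord, x ∈ C ∧ x.cof.ord ≤ μ ∧ z = (Jo j x).toZFSet := by
    intro z hz
    obtain ⟨a, ha1, ⟨ha2, ha3⟩, ha4, rfl⟩ := hY.mem z hz
    obtain ⟨x, hx1, hx2, hx3, hx4⟩ := SJ2_pt hs hC ha1 ha2 ha3 ha4
    exact ⟨x, hx1, hx2, hx3, by rw [hx4]⟩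
  set X : ZFSet.{u} := os K.ord {a | (Jo j a).toZFSet ∈ Y} with hX
  have inj : ∀ a b : Ordinal.{u}, a < K.ord → b < K.ord → Jo j a = Jo j b → a = b := by
    intro a b ha hb hab
    exact (hj.eq_iff (ha.trans hs.kη) (hb.trans hs.kη)).1 hab
  have hmem : ∀ a : Ordinal.{u}, a.toZFSet ∈ X ↔ a < K.ord ∧ (Jo j a).toZFSet ∈ Y := by
    intro a
    rw [hX, ord_mem_os]
    rfl
  have hsub : X ⊆ K.ord.toZFSet := by
    intro z hz
    rw [hX, mem_os] at hz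
    obtain ⟨a, ha, -, rfl⟩ := hz
    exact toZFSet_mem_toZFSet_iff.2 ha
  have few : ∃ g : Ordinal.{u} → Ordinal.{u}, ∀ a : Ordinal.{u}, a.toZFSet ∈ X →
      ∃ i < μ, g i = a := by
    obtain ⟨g, hg⟩ := hY.few
    have hex : ∀ i : Ordinal.{u}, ∃ a : Ordinal.{u},
        (∃ b < K.ord, Jo j b = g i) → a < K.ord ∧ Jo j a = g i := by
      intro i
      by_cases h1 : ∃ b < K.ord, Jo j b = g i
      · obtain ⟨b, hb⟩ := h1
        exact ⟨b, fun _ => hb⟩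
      · exact ⟨0, fun h2 => absurd h2 h1⟩
    choose g' hg' using hex
    refine ⟨g', fun a ha => ?_⟩
    obtain ⟨ha1, ha2⟩ := (hmem a).1 ha
    obtain ⟨i, hi, hgi⟩ := hg _ ha2
    obtain ⟨h3, h4⟩ := hg' i ⟨a, ha1, hgi.symm⟩
    exact ⟨i, hi, inj _ _ h3 ha1 (h4.trans hgi)⟩
  have hjX := h δ η θ j K μ ρ F hs X hsub few
  refine ⟨X, ⟨?_, ?_, few⟩, mem_V_of_sub hsub (Gd.ord.2 hs.kη), ?_⟩
  · obtain ⟨z, hz⟩ := hY.ne
    obtain ⟨x, hx1, -, -, rfl⟩ := pt z hz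
    exact ⟨x.toZFSet, (hmem x).2 ⟨hx1, hz⟩⟩
  · intro z hz
    rw [hX, mem_os] at hz
    obtain ⟨a, ha, ha2, rfl⟩ := hz
    have ha4 : (Jo j a).toZFSet ∈ Y := ha2
    obtain ⟨x, hx1, hx2, hx3, hx4⟩ := pt _ ha4
    have : a = x := inj a x ha hx1 (toZFSet_injective hx4)
    rw [this]
    exact ⟨x, hx1, hx2, hx3, rfl⟩
  · ext z
    rw [hjX]
    constructor
    · intro hz
      obtain ⟨x, hx1, -, -, rfl⟩ := pt z hz
      exact ⟨x, (hmem x).2 ⟨hx1, hz⟩, rfl⟩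
    · rintro ⟨a, ha, rfl⟩
      exact ((hmem a).1 ha).2

end Pool.Agent.H55.PRK
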